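import Pool.Agent.R54.AS.Final
import Pool.Agent.R54.AS.Flip
import Pool.Agent.R54.AS.Area
import Pool.Agent.R54.AS.Abs

/-!
Area law of square-lattice self-avoiding polygons: the law of the area `A_n` of the uniform polygon
of perimeter `2 n` is smooth on the scale `√n`, jointly with all observables that change little
when one vertex of the polygon is moved; all but an exponentially small proportion of the polygons
have a linear number of free corners.
-/

set_option autoImplicit false

namespace Pool.Agent.Results.MP_f6626d_co.AreaLawSmooth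

/-- a closed nearest-neighbour loop on `ℤ²` with `m` steps, rooted at the origin and oriented,
that visits no vertex twice -/
def IsLoop (m : ℕ) (f : ZMod m → ℤ × ℤ) : Prop :=
  f 0 = 0 ∧ Function.Injective f ∧
    ∀ i : ZMod m, |(f (i + 1)).1 - (f i).1| + |(f (i + 1)).2 - (f i).2| = 1

/-- the edge from `f k` to `f (k+1)` is horizontal, joins the columns `x = a` and `x = a + 1`, and
has height larger than `b`: it lies above the unit cell `[a, a+1] × [b, b+1]` -/
def Above (m : ℕ) (f : ZMod m → ℤ × ℤ) (a b : ℤ) (k : ZMod m) : Prop :=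
  (((f k).1 = a ∧ (f (k + 1)).1 = a + 1) ∨ ((f k).1 = a + 1 ∧ (f (k + 1)).1 = a)) ∧ b < (f k).2

/-- the unit cell `[a, a+1] × [b, b+1]` is enclosed by the loop: the vertical ray from the cell
upwards crosses an odd number of edges -/
def Encl (m : ℕ) (f : ZMod m → ℤ × ℤ) (c : ℤ × ℤ) : Prop :=
  Odd (Nat.card {k : ZMod m // Above m f c.1 c.2 k})

/-- the area: the number of unit cells enclosed by the loop -/
noncomputable def area (m : ℕ) (f : ZMod m → ℤ × ℤ) : ℕ := Nat.card {c : ℤ × ℤ // Encl m f c}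

/-- expectation under the uniform law on the (rooted, oriented) self-avoiding polygons of
perimeter `2 n` -/
noncomputable def E (n : ℕ) (F : (ZMod (2 * n) → ℤ × ℤ) → ℝ) : ℝ :=
  (∑ᶠ f ∈ {f : ZMod (2 * n) → ℤ × ℤ | IsLoop (2 * n) f}, F f) /
    ({f : ZMod (2 * n) → ℤ × ℤ | IsLoop (2 * n) f}.ncard : ℝ)

open scoped Classical in
/-- probability under the uniform law on the self-avoiding polygons of perimeter `2 n` -/
noncomputable def P (n : ℕ) (Q : (ZMod (2 * n) → ℤ × ℤ) → Prop) : ℝ :=
  E n (fun f => if Q f then 1 else 0)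

/-- the number of free corners: the number of vertices `f k` such that the site
`f (k-1) + f (k+1) - f k` is not visited.  (If the loop goes straight through `f k` this site is
`f k`; if it turns at `f k` it is the fourth vertex of the unit square spanned by the two edges.) -/
noncomputable def freeCorners (n : ℕ) (f : ZMod (2 * n) → ℤ × ℤ) : ℕ :=
  Nat.card {k : ZMod (2 * n) // ∀ j, f j ≠ f (k - 1) + f (k + 1) - f k}

/-- **Theorem.** Let `A_n` be the area of the uniform self-avoiding polygon of perimeter `2 n` on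
`ℤ²`. There are `C, c > 0` such that for all `n ≥ 2`:
(1) for all `g : ℤ → [-1, 1]` and all functions `F` of the polygon with values in `[-1, 1]` that
change by at most `δ` when one vertex of the polygon is moved,
`|E[F g(A_n + 1)] - E[F g(A_n)]| ≤ C (δ + 1/√n)`;
(2) `∑_a |P(A_n = a + 1) - P(A_n = a)| ≤ C / √n`;
(3) `P(A_n = a) ≤ C / √n` for all `a`;
(4) `|P(A_n ≡ r mod q) - 1/q| ≤ C / √n` for all `q ≥ 1` and all `r`;
(5) the polygon has fewer than `n / 40` free corners with probability at most `C exp (- c n)`. -/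
theorem result : ∃ C c : ℝ, 0 < C ∧ 0 < c ∧ ∀ n : ℕ, 2 ≤ n →
    (∀ (g : ℤ → ℝ) (F : (ZMod (2 * n) → ℤ × ℤ) → ℝ) (δ : ℝ), (∀ a, |g a| ≤ 1) →
      (∀ f, IsLoop (2 * n) f → |F f| ≤ 1) →
      (∀ f f' : ZMod (2 * n) → ℤ × ℤ, IsLoop (2 * n) f → IsLoop (2 * n) f' →
        (∃ k, ∀ j, j ≠ k → f j = f' j) → |F f - F f'| ≤ δ) →
      |E n (fun f => F f * g ((area (2 * n) f : ℤ) + 1)) -
        E n (fun f => F f * g (area (2 * n) f : ℤ))| ≤ C * (δ + 1 / Real.sqrt n)) ∧
    (∑' a : ℕ, |P n (fun f => area (2 * n) f = a + 1) - P n (fun f => area (2 * n) f = a)| ≤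
      C / Real.sqrt n) ∧
    (∀ a : ℕ, P n (fun f => area (2 * n) f = a) ≤ C / Real.sqrt n) ∧
    (∀ q : ℕ, 1 ≤ q → ∀ r : ℕ,
      |P n (fun f => area (2 * n) f ≡ r [MOD q]) - 1 / q| ≤ C / Real.sqrt n) ∧
    P n (fun f => (freeCorners n f : ℝ) < n / 40) ≤ C * Real.exp (-(c * n)) :=
  Pool.Agent.R54.AS.Final.all Pool.Agent.R54.AS.flip
    (Pool.Agent.R54.AS.areaS Pool.Agent.R54.AS.flip) Pool.Agent.R54.AS.absS

end Pool.Agent.Results.MP_f6626d_co.AreaLawSmooth
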