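import Pool.Agent.R956.A2

/-!
Area law of square-lattice self-avoiding polygons: the structure of the set of limit laws of
`A_n / E[A_n]`, and the method of moments along sparse sets of perimeters.
-/

set_option autoImplicit false

namespace Pool.Agent.Results.MP_f6626d_co.AreaLimits

open Filter Topology MeasureTheory

/-- a closed nearest-neighbour loop on `ℤ²` with `m` steps, rooted at the origin and oriented,
that visits no vertex twice -/
def IsLoop (m : ℕ) (f : ZMod m → ℤ × ℤ) : Prop :=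
  f 0 = 0 ∧ Function.Injective f ∧
    ∀ i : ZMod m, |(f (i + 1)).1 - (f i).1| + |(f (i + 1)).2 - (f i).2| = 1

/-- the edge from `f k` to `f (k+1)` is horizontal, joins the columns `x = a` and `x = a + 1`, and
has height larger than `b`: it lies above the unit cell `[a, a+1] × [b, b+1]` -/
def Above (m : ℕ) (f : ZMod m → ℤ × ℤ) (a b : ℤ) (k : ZMod m) : Prop :=
  (((f k).1 = a ∧ (f (k + 1)).1 = a + 1) ∨ ((f k).1 = a + 1 ∧ (f (k + 1)).1 = a)) ∧ b < (f k).2

/-- the unit cell `[a, a+1] × [b, b+1]` is enclosed by the loop: the vertical ray from the cell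
upwards crosses an odd number of edges -/
def Encl (m : ℕ) (f : ZMod m → ℤ × ℤ) (c : ℤ × ℤ) : Prop :=
  Odd (Nat.card {k : ZMod m // Above m f c.1 c.2 k})

/-- the area: the number of unit cells enclosed by the loop -/
noncomputable def area (m : ℕ) (f : ZMod m → ℤ × ℤ) : ℕ := Nat.card {c : ℤ × ℤ // Encl m f c}

/-- expectation under the uniform law on the (rooted, oriented) self-avoiding polygons of
perimeter `2 n` -/
noncomputable def E (n : ℕ) (F : (ZMod (2 * n) → ℤ × ℤ) → ℝ) : ℝ :=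
  (∑ᶠ f ∈ {f : ZMod (2 * n) → ℤ × ℤ | IsLoop (2 * n) f}, F f) /
    ({f : ZMod (2 * n) → ℤ × ℤ | IsLoop (2 * n) f}.ncard : ℝ)

/-- the mean area `E[A_n]` -/
noncomputable def meanArea (n : ℕ) : ℝ := E n (fun f => (area (2 * n) f : ℝ))

/-- `E[g(A_n / E[A_n])]` -/
noncomputable def L (n : ℕ) (g : ℝ → ℝ) : ℝ := E n (fun f => g ((area (2 * n) f : ℝ) / meanArea n))

/-- `A_n / E[A_n]` converges in distribution to `ν` along the sequence `n = φ 0, φ 1, …` -/
def ConvergesAlong (φ : ℕ → ℕ) (ν : ProbabilityMeasure ℝ) : Prop :=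
  ∀ g : ℝ → ℝ, Continuous g → (∃ C, ∀ x, |g x| ≤ C) →
    Tendsto (fun j => L (φ j) g) atTop (𝓝 (∫ x, g x ∂(ν : Measure ℝ)))

/-- the limit laws of `A_n / E[A_n]` along sequences `n → ∞` -/
def limitLaws : Set (ProbabilityMeasure ℝ) :=
  {ν | ∃ φ : ℕ → ℕ, StrictMono φ ∧ ConvergesAlong φ ν}

/-- `ν` has finite moments and is the only probability measure on `ℝ` with these moments -/
def MomentDetermined (ν : ProbabilityMeasure ℝ) : Prop :=
  (∀ k : ℕ, Integrable (fun x => x ^ k) (ν : Measure ℝ)) ∧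
  ∀ ρ : ProbabilityMeasure ℝ, (∀ k : ℕ, Integrable (fun x => x ^ k) (ρ : Measure ℝ) ∧
    ∫ x, x ^ k ∂(ρ : Measure ℝ) = ∫ x, x ^ k ∂(ν : Measure ℝ)) → ρ = ν

theorem converges_iff {φ : ℕ → ℕ} (hφ : StrictMono φ) (ν : ProbabilityMeasure ℝ) :
    ConvergesAlong φ ν ↔ Tendsto (fun j => Pool.Agent.W387.Q.AL.plaw (φ j)) atTop (𝓝 ν) := by
  have key : ∀ g : ℝ → ℝ, ∀ᶠ j in atTop,
      ∫ x, g x ∂(Pool.Agent.W387.Q.AL.plaw (φ j) : Measure ℝ) = L (φ j) g := by
    intro g
    filter_upwards [hφ.tendsto_atTop.eventually_ge_atTop 2] with j hj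
    exact Pool.Agent.W387.Q.AL.integral_law hj g
  rw [ProbabilityMeasure.tendsto_iff_forall_integral_tendsto]
  constructor
  · intro h f
    exact (h f f.continuous ⟨‖f‖, fun x => f.norm_coe_le_norm x⟩).congr' (by
      filter_upwards [key f] with j hj
      exact hj.symm)
  · rintro h g hg ⟨C, hC⟩
    exact (h (BoundedContinuousFunction.ofNormedAddCommGroup g hg C hC)).congr' (key g)

theorem limitLaws_eq : limitLaws = Pool.Agent.R956.Lim Pool.Agent.W387.Q.AL.plaw := by
  ext ν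
  constructor
  · rintro ⟨φ, h1, h2⟩
    exact ⟨φ, h1, (converges_iff h1 ν).mp h2⟩
  · rintro ⟨φ, h1, h2⟩
    exact ⟨φ, h1, (converges_iff h1 ν).mpr h2⟩

/-- **Theorem.** (1) Every sequence `n → ∞` has a subsequence along which `A_n / E[A_n]` converges
in distribution. (2) The set of all limit laws of `A_n / E[A_n]` along sequences `n → ∞` is
nonempty, compact and connected in the weak topology, and either `A_n / E[A_n]` converges in
distribution or this set is uncountable. (3) Every limit law is carried by `[0, ∞)` and has mean at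
most `1`. (4) Let `ν` be a probability measure which is determined by its moments. If for every `k`
there is a sequence `s_j → ∞`, which may depend on `k`, with `(s_{j+1} - s_j) log s_j / √(s_j) → 0` such
that `E[(A_n/E[A_n])^k]` converges along `n = s_j` to the `k`-th moment of `ν`, then `A_n / E[A_n]`
converges in distribution to `ν` along all `n`. -/
theorem result :
    (∀ φ : ℕ → ℕ, StrictMono φ →
      ∃ ν ∈ limitLaws, ∃ ψ : ℕ → ℕ, StrictMono ψ ∧ ConvergesAlong (φ ∘ ψ) ν) ∧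
    (IsCompact limitLaws ∧ IsConnected limitLaws ∧
      ((∃ ν, ConvergesAlong id ν) ∨ ¬ limitLaws.Countable)) ∧
    (∀ ν ∈ limitLaws, (ν : Measure ℝ) (Set.Iio 0) = 0 ∧
      ∫⁻ x, ENNReal.ofReal x ∂(ν : Measure ℝ) ≤ 1) ∧
    ∀ ν : ProbabilityMeasure ℝ, MomentDetermined ν →
      (∀ k : ℕ, ∃ s : ℕ → ℕ, Tendsto s atTop atTop ∧
        Tendsto (fun j => ((s (j + 1) : ℝ) - s j) * (Real.log (s j) / Real.sqrt (s j)))
          atTop (𝓝 0) ∧
        Tendsto (fun j => L (s j) (fun x => x ^ k)) atTop (𝓝 (∫ x, x ^ k ∂(ν : Measure ℝ)))) →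
      ConvergesAlong id ν := by
  have hsq := Pool.Agent.R956.A2.sq
  obtain ⟨h1, h2, h3, h4, h5⟩ := Pool.Agent.R956.A1.limits hsq
  rw [← limitLaws_eq] at h1 h2 h3 h4 h5
  refine ⟨fun φ hφ => ?_, ⟨h2, ⟨h1, h3⟩, ?_⟩, ?_, ?_⟩
  · obtain ⟨ν, hν, ψ, hψ, h6⟩ := h4 φ hφ
    exact ⟨ν, hν, ψ, hψ, (converges_iff (hφ.comp hψ) ν).mpr h6⟩
  · rcases h5 with ⟨ν, h6⟩ | h6
    · exact Or.inl ⟨ν, (converges_iff strictMono_id ν).mpr h6⟩
    · exact Or.inr h6
  · rintro ν hν
    rw [limitLaws_eq] at hν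
    obtain ⟨ψ, -, h6⟩ := hν
    have h7 := Pool.Agent.R956.A1.limit_nonneg hsq h6
    refine ⟨h7, ?_⟩
    refine le_trans (le_of_eq ?_) (Pool.Agent.R956.A1.limit_mean hsq h6)
    refine lintegral_congr_ae ?_
    filter_upwards [Pool.Agent.R956.A1.ae_nonneg h7] with x hx
    rw [max_eq_left hx]
  · rintro ν ⟨-, hν⟩ hm
    exact (converges_iff strictMono_id ν).mpr
      (Pool.Agent.R956.A2.sparse_moments (m := fun k => ∫ x, x ^ k ∂(ν : Measure ℝ)) hm hν)

end Pool.Agent.Results.MP_f6626d_co.AreaLimits
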