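import Pool.Agent.H726.AL.Prob

/-!
Area law of square-lattice self-avoiding polygons: pointwise ratios of neighbouring probabilities,
down to exponentially small probabilities.
-/

set_option autoImplicit false

namespace Pool.Agent.Results.MP_f6626d_co.AreaRatio

/-- a closed nearest-neighbour loop on `ℤ²` with `m` steps, rooted at the origin and oriented,
that visits no vertex twice -/
def IsLoop (m : ℕ) (f : ZMod m → ℤ × ℤ) : Prop :=
  f 0 = 0 ∧ Function.Injective f ∧
    ∀ i : ZMod m, |(f (i + 1)).1 - (f i).1| + |(f (i + 1)).2 - (f i).2| = 1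

/-- the edge from `f k` to `f (k+1)` is horizontal, joins the columns `x = a` and `x = a + 1`, and
has height larger than `b`: it lies above the unit cell `[a, a+1] × [b, b+1]` -/
def Above (m : ℕ) (f : ZMod m → ℤ × ℤ) (a b : ℤ) (k : ZMod m) : Prop :=
  (((f k).1 = a ∧ (f (k + 1)).1 = a + 1) ∨ ((f k).1 = a + 1 ∧ (f (k + 1)).1 = a)) ∧ b < (f k).2

/-- the unit cell `[a, a+1] × [b, b+1]` is enclosed by the loop: the vertical ray from the cell
upwards crosses an odd number of edges -/
def Encl (m : ℕ) (f : ZMod m → ℤ × ℤ) (c : ℤ × ℤ) : Prop :=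
  Odd (Nat.card {k : ZMod m // Above m f c.1 c.2 k})

/-- the area: the number of unit cells enclosed by the loop -/
noncomputable def area (m : ℕ) (f : ZMod m → ℤ × ℤ) : ℕ := Nat.card {c : ℤ × ℤ // Encl m f c}

/-- `P(A_n = a)`: the proportion, among the (rooted, oriented) self-avoiding polygons of perimeter
`2 n`, of those of area `a` -/
noncomputable def p (n a : ℕ) : ℝ :=
  ({f : ZMod (2 * n) → ℤ × ℤ | IsLoop (2 * n) f ∧ area (2 * n) f = a}.ncard : ℝ) /
    ({f : ZMod (2 * n) → ℤ × ℤ | IsLoop (2 * n) f}.ncard : ℝ)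

/-- **Theorem.** Let `p n a = P(A_n = a)` for the area `A_n` of the uniform self-avoiding polygon
of perimeter `2 n` on `ℤ²`. There are `K, c > 0` such that for all large `n` and all neighbouring
integers `a, b ≥ 0` with `p n a ≥ exp (- c n)`:
`|p n b - p n a| ≤ K √(log (n / p n a) / n) p n a`. -/
theorem result : ∃ K c : ℝ, ∃ n₀ : ℕ, 0 < K ∧ 0 < c ∧ ∀ n : ℕ, n₀ ≤ n → ∀ a b : ℕ,
    (b = a + 1 ∨ a = b + 1) → Real.exp (-(c * n)) ≤ p n a →
    |p n b - p n a| ≤ K * Real.sqrt (Real.log (n / p n a) / n) * p n a := by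
  obtain ⟨K, c, n₀, hK, hc, h⟩ := H726.AL.words
  refine ⟨K, c, max n₀ 2, hK, hc, fun n hn a b hab hp => ?_⟩
  have hn2 : 2 ≤ n := (le_max_right _ _).trans hn
  have hn0 : n₀ ≤ n := (le_max_left _ _).trans hn
  have hcp := Pool.Agent.R54.AS.Fin.card_pos hn2
  have e : ∀ a : ℕ, p n a = H726.AL.cnt n a / ((Pool.Agent.H739K.KP (2 * n - 1)).card : ℝ) :=
    H726.AL.p_eq hn2
  rw [e a] at hp ⊢
  rw [e b]
  have h1 := h n hn0 hn2 a b (by omega) hp
  rw [← sub_div, abs_div, abs_of_pos hcp, mul_div_assoc', div_le_div_iff_of_pos_right hcp]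
  exact h1

end Pool.Agent.Results.MP_f6626d_co.AreaRatio
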