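import Pool.Agent.R475.AA

/-!
Area law of square-lattice self-avoiding polygons: if every moment of `A_n / E[A_n]` converges along
a set of perimeters with gaps `o(√n)` (which may depend on the moment) to the moment of a law `ν`
that is determined by its moments, then `A_n / E[A_n]` converges to `ν` in distribution along almost
all perimeters, with all moments.
-/

set_option autoImplicit false

open MeasureTheory Filter Topology

namespace Pool.Agent.Results.MP_f6626d_co.MostPerimeters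

/-- a closed nearest-neighbour loop on `ℤ²` with `m` steps, rooted at the origin and oriented,
that visits no vertex twice -/
def IsLoop (m : ℕ) (f : ZMod m → ℤ × ℤ) : Prop :=
  f 0 = 0 ∧ Function.Injective f ∧
    ∀ i : ZMod m, |(f (i + 1)).1 - (f i).1| + |(f (i + 1)).2 - (f i).2| = 1

/-- the edge from `f k` to `f (k+1)` is horizontal, joins the columns `x = a` and `x = a + 1`, and
has height larger than `b`: it lies above the unit cell `[a, a+1] × [b, b+1]` -/
def Above (m : ℕ) (f : ZMod m → ℤ × ℤ) (a b : ℤ) (k : ZMod m) : Prop :=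
  (((f k).1 = a ∧ (f (k + 1)).1 = a + 1) ∨ ((f k).1 = a + 1 ∧ (f (k + 1)).1 = a)) ∧ b < (f k).2

/-- the unit cell `[a, a+1] × [b, b+1]` is enclosed by the loop: the vertical ray from the cell
upwards crosses an odd number of edges -/
def Encl (m : ℕ) (f : ZMod m → ℤ × ℤ) (c : ℤ × ℤ) : Prop :=
  Odd (Nat.card {k : ZMod m // Above m f c.1 c.2 k})

/-- the area: the number of unit cells enclosed by the loop -/
noncomputable def area (m : ℕ) (f : ZMod m → ℤ × ℤ) : ℕ := Nat.card {c : ℤ × ℤ // Encl m f c}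

/-- expectation under the uniform law on the (rooted, oriented) self-avoiding polygons of
perimeter `2 n` -/
noncomputable def E (n : ℕ) (F : (ZMod (2 * n) → ℤ × ℤ) → ℝ) : ℝ :=
  (∑ᶠ f ∈ {f : ZMod (2 * n) → ℤ × ℤ | IsLoop (2 * n) f}, F f) /
    ({f : ZMod (2 * n) → ℤ × ℤ | IsLoop (2 * n) f}.ncard : ℝ)

/-- the mean area `E[A_n]` -/
noncomputable def meanArea (n : ℕ) : ℝ := E n (fun f => (area (2 * n) f : ℝ))

/-- `E[g(A_n / E[A_n])]` -/
noncomputable def L (n : ℕ) (g : ℝ → ℝ) : ℝ := E n (fun f => g ((area (2 * n) f : ℝ) / meanArea n))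

/-- `ν` has finite moments and is the only probability measure on `ℝ` with these moments -/
def MomentDetermined (ν : ProbabilityMeasure ℝ) : Prop :=
  (∀ k : ℕ, Integrable (fun x => x ^ k) (ν : Measure ℝ)) ∧
  ∀ ρ : ProbabilityMeasure ℝ, (∀ k : ℕ, Integrable (fun x => x ^ k) (ρ : Measure ℝ) ∧
    ∫ x, x ^ k ∂(ρ : Measure ℝ) = ∫ x, x ^ k ∂(ν : Measure ℝ)) → ρ = ν

/-- the gaps of `S` are `o(√n)`: for every `δ > 0`, every long interval `[n, n + δ √n]` meets `S` -/
def Gaps (S : Set ℕ) : Prop :=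
  ∀ δ : ℝ, 0 < δ → ∀ᶠ n : ℕ in atTop, ∃ m ∈ S, n ≤ m ∧ (m : ℝ) ≤ n + δ * Real.sqrt n

open scoped Classical in
/-- `P` holds for almost all `n`: the proportion of the `n` in `[N, 2 N)` without `P` tends to `0` -/
def AlmostAll (P : ℕ → Prop) : Prop :=
  Tendsto (fun N : ℕ => (((Finset.Ico N (2 * N)).filter (fun n => ¬ P n)).card : ℝ) / N)
    atTop (𝓝 0)

/-- **Theorem.** Let `ν` be a probability measure which is determined by its moments and let
`S_0, S_1, …` be sets of integers with gaps `o(√n)`.  Suppose that for every `k` the `k`-th moment of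
`A_n / E[A_n]` converges along `S_k` to the `k`-th moment of `ν`.  Then for every `ε > 0`, every `k`
and every bounded continuous `g`, almost all `n` satisfy
`|E[(A_n / E[A_n])^k] - ∫ x^k dν| ≤ ε` and `|E[g(A_n / E[A_n])] - ∫ g dν| ≤ ε`. -/
theorem result :
    ∀ ν : ProbabilityMeasure ℝ, MomentDetermined ν →
    ∀ S : ℕ → Set ℕ, (∀ k, Gaps (S k)) →
      (∀ k : ℕ, Tendsto (fun n : ℕ => L n (fun x => x ^ k)) (atTop ⊓ 𝓟 (S k))
        (𝓝 (∫ x, x ^ k ∂(ν : Measure ℝ)))) →
      ∀ ε : ℝ, 0 < ε →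
        (∀ k : ℕ, AlmostAll (fun n => |L n (fun x => x ^ k) - ∫ x, x ^ k ∂(ν : Measure ℝ)| ≤ ε)) ∧
        (∀ g : ℝ → ℝ, Continuous g → (∃ C, ∀ x, |g x| ≤ C) →
          AlmostAll (fun n => |L n g - ∫ x, g x ∂(ν : Measure ℝ)| ≤ ε)) := by
  rintro ν ⟨-, hν⟩ S hS hm ε hε
  obtain ⟨h1, h2⟩ := Pool.Agent.R475.AA.most_law (S := S) hS
    (m := fun k => ∫ x, x ^ k ∂(ν : Measure ℝ)) hm hν hε
  refine ⟨fun k => h1 k, fun g hg hgb => ?_⟩
  obtain ⟨C, hC⟩ := hgb
  have h3 := h2 (BoundedContinuousFunction.ofNormedAddCommGroup g hg C hC)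
  refine h3.mono ?_
  filter_upwards [eventually_ge_atTop 2] with n hn h4
  have e : ∫ x, g x ∂(Pool.Agent.W387.Q.AL.plaw n : Measure ℝ) = L n g :=
    Pool.Agent.W387.Q.AL.integral_law hn g
  rw [← e]
  exact h4

end Pool.Agent.Results.MP_f6626d_co.MostPerimeters
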