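import Pool.Agent.R475.AM

/-!
Area law of square-lattice self-avoiding polygons: if the number of polygons and the mean area have
regular asymptotic forms along a set of perimeters with gaps `o(√n)`, and every moment of
`A_n / E[A_n]` converges along such a set (which may depend on the moment), then all these
statements and the convergence in distribution of `A_n / E[A_n]` hold along all perimeters.
-/

set_option autoImplicit false

open MeasureTheory Filter Topology

namespace Pool.Agent.Results.MP_f6626d_co.SparsePerimeters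

/-- a closed nearest-neighbour loop on `ℤ²` with `m` steps, rooted at the origin and oriented,
that visits no vertex twice -/
def IsLoop (m : ℕ) (f : ZMod m → ℤ × ℤ) : Prop :=
  f 0 = 0 ∧ Function.Injective f ∧
    ∀ i : ZMod m, |(f (i + 1)).1 - (f i).1| + |(f (i + 1)).2 - (f i).2| = 1

/-- the edge from `f k` to `f (k+1)` is horizontal, joins the columns `x = a` and `x = a + 1`, and
has height larger than `b`: it lies above the unit cell `[a, a+1] × [b, b+1]` -/
def Above (m : ℕ) (f : ZMod m → ℤ × ℤ) (a b : ℤ) (k : ZMod m) : Prop :=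
  (((f k).1 = a ∧ (f (k + 1)).1 = a + 1) ∨ ((f k).1 = a + 1 ∧ (f (k + 1)).1 = a)) ∧ b < (f k).2

/-- the unit cell `[a, a+1] × [b, b+1]` is enclosed by the loop: the vertical ray from the cell
upwards crosses an odd number of edges -/
def Encl (m : ℕ) (f : ZMod m → ℤ × ℤ) (c : ℤ × ℤ) : Prop :=
  Odd (Nat.card {k : ZMod m // Above m f c.1 c.2 k})

/-- the area: the number of unit cells enclosed by the loop -/
noncomputable def area (m : ℕ) (f : ZMod m → ℤ × ℤ) : ℕ := Nat.card {c : ℤ × ℤ // Encl m f c}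

/-- the number `q_n` of rooted oriented polygons of perimeter `2 n`; it is `4 n p_{2n}`, as each
polygon has `2 n` vertices and two orientations -/
noncomputable def q (n : ℕ) : ℕ := {f : ZMod (2 * n) → ℤ × ℤ | IsLoop (2 * n) f}.ncard

/-- expectation under the uniform law on the (rooted, oriented) self-avoiding polygons of
perimeter `2 n` -/
noncomputable def E (n : ℕ) (F : (ZMod (2 * n) → ℤ × ℤ) → ℝ) : ℝ :=
  (∑ᶠ f ∈ {f : ZMod (2 * n) → ℤ × ℤ | IsLoop (2 * n) f}, F f) /
    ({f : ZMod (2 * n) → ℤ × ℤ | IsLoop (2 * n) f}.ncard : ℝ)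

/-- the mean area `E[A_n]` -/
noncomputable def meanArea (n : ℕ) : ℝ := E n (fun f => (area (2 * n) f : ℝ))

/-- `E[g(A_n / E[A_n])]` -/
noncomputable def L (n : ℕ) (g : ℝ → ℝ) : ℝ := E n (fun f => g ((area (2 * n) f : ℝ) / meanArea n))

/-- `A_n / E[A_n]` converges in distribution to `ν` -/
def ConvergesTo (ν : ProbabilityMeasure ℝ) : Prop :=
  ∀ g : ℝ → ℝ, Continuous g → (∃ C, ∀ x, |g x| ≤ C) →
    Tendsto (fun n => L n g) atTop (𝓝 (∫ x, g x ∂(ν : Measure ℝ)))

/-- `ν` has finite moments and is the only probability measure on `ℝ` with these moments -/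
def MomentDetermined (ν : ProbabilityMeasure ℝ) : Prop :=
  (∀ k : ℕ, Integrable (fun x => x ^ k) (ν : Measure ℝ)) ∧
  ∀ ρ : ProbabilityMeasure ℝ, (∀ k : ℕ, Integrable (fun x => x ^ k) (ρ : Measure ℝ) ∧
    ∫ x, x ^ k ∂(ρ : Measure ℝ) = ∫ x, x ^ k ∂(ν : Measure ℝ)) → ρ = ν

/-- the gaps of `S` are `o(√n)`: for every `δ > 0`, every long interval `[n, n + δ √n]` meets `S` -/
def Gaps (S : Set ℕ) : Prop :=
  ∀ δ : ℝ, 0 < δ → ∀ᶠ n : ℕ in atTop, ∃ m ∈ S, n ≤ m ∧ (m : ℝ) ≤ n + δ * Real.sqrt n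

theorem converges_iff (ν : ProbabilityMeasure ℝ) :
    ConvergesTo ν ↔ Tendsto Pool.Agent.W387.Q.AL.plaw atTop (𝓝 ν) := by
  have key : ∀ g : ℝ → ℝ, ∀ᶠ j in atTop,
      ∫ x, g x ∂(Pool.Agent.W387.Q.AL.plaw j : Measure ℝ) = L j g := by
    intro g
    filter_upwards [eventually_ge_atTop 2] with j hj
    exact Pool.Agent.W387.Q.AL.integral_law hj g
  rw [ProbabilityMeasure.tendsto_iff_forall_integral_tendsto]
  constructor
  · intro h f
    exact (h f f.continuous ⟨‖f‖, fun x => f.norm_coe_le_norm x⟩).congr' (by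
      filter_upwards [key f] with j hj
      exact hj.symm)
  · rintro h g hg ⟨C, hC⟩
    exact (h (BoundedContinuousFunction.ofNormedAddCommGroup g hg C hC)).congr' (key g)

/-- **Theorem.** Let `q_n = 4 n p_{2n}` be the number of rooted oriented polygons of perimeter `2 n`
and `μ = lim q_n^(1/(2n))`.  Let `ν` be a probability measure which is determined by its moments and
let `T, S_0, S_1, …` be sets of integers with gaps `o(√n)`.  Suppose that `q_n / (μ^(2n) n^β) → B > 0`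
and `E[A_n] / n^θ → c > 0` (`θ ≥ 1`) along `T`, and that for every `k` the `k`-th moment of
`A_n / E[A_n]` converges along `S_k` to the `k`-th moment of `ν`.  Then all this holds along all `n`,
and `A_n / E[A_n]` converges in distribution to `ν`. -/
theorem result : ∃ μ : ℝ, 0 < μ ∧
    Tendsto (fun n : ℕ => (q n : ℝ) ^ (1 / (2 * (n : ℝ)))) atTop (𝓝 μ) ∧
    ∀ ν : ProbabilityMeasure ℝ, MomentDetermined ν →
    ∀ (T : Set ℕ) (S : ℕ → Set ℕ), Gaps T → (∀ k, Gaps (S k)) →
    ∀ β θ B c : ℝ, 0 < B → 0 < c → 1 ≤ θ →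
      Tendsto (fun n : ℕ => q n / μ ^ (2 * n) / (n : ℝ) ^ β) (atTop ⊓ 𝓟 T) (𝓝 B) →
      Tendsto (fun n : ℕ => meanArea n / (n : ℝ) ^ θ) (atTop ⊓ 𝓟 T) (𝓝 c) →
      (∀ k : ℕ, Tendsto (fun n : ℕ => L n (fun x => x ^ k)) (atTop ⊓ 𝓟 (S k))
        (𝓝 (∫ x, x ^ k ∂(ν : Measure ℝ)))) →
      Tendsto (fun n : ℕ => q n / μ ^ (2 * n) / (n : ℝ) ^ β) atTop (𝓝 B) ∧
      Tendsto (fun n : ℕ => meanArea n / (n : ℝ) ^ θ) atTop (𝓝 c) ∧
      (∀ k : ℕ, Tendsto (fun n : ℕ => L n (fun x => x ^ k)) atTop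
        (𝓝 (∫ x, x ^ k ∂(ν : Measure ℝ)))) ∧
      ConvergesTo ν := by
  refine ⟨H981.mu, H981.mu_pos, Pool.Agent.R945.SJ.root, ?_⟩
  rintro ν ⟨-, hν⟩ T S hT hS β θ B c hB hc hθ h0 h1 hm
  obtain ⟨a0, a1, a2, a3⟩ := Pool.Agent.R475.AM.law_form (T := T) (S := S) hT hS hB hc hθ h0 h1
    (m := fun k => ∫ x, x ^ k ∂(ν : Measure ℝ)) hm hν
  exact ⟨a0, a1, a2, (converges_iff ν).mpr a3⟩

end Pool.Agent.Results.MP_f6626d_co.SparsePerimeters
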